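import Mathlib

/-!
# MP_eb9c50_an: definitions and exact statements of the pieces

`CE E` = continuous functions on the circle with spectrum in `E`; translation invariant linear
forms; automatic continuity property `ACP`; Sidon sets.
-/

set_option autoImplicit false

namespace Pool.Agent.R259.TI

open MeasureTheory Set Filter Topology

lemma integ (f : C(UnitAddCircle, ℂ)) :
    Integrable (f : UnitAddCircle → ℂ) (AddCircle.haarAddCircle (T := 1)) :=
  f.continuous.integrable_of_hasCompactSupport (HasCompactSupport.of_compactSpace _)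

/-- The space of `E`-spectral continuous functions on the circle `ℝ/ℤ`. -/
noncomputable def CE (E : Set ℤ) : Submodule ℂ C(UnitAddCircle, ℂ) where
  carrier := {f | ∀ k : ℤ, k ∉ E → fourierCoeff (f : UnitAddCircle → ℂ) k = 0}
  zero_mem' := by
    intro k _
    simp [fourierCoeff]
  add_mem' := by
    intro f g hf hg k hk
    have h := congrFun (fourierCoeff.add (integ f) (integ g)) k
    rw [ContinuousMap.coe_add, h, Pi.add_apply, hf k hk, hg k hk, add_zero]
  smul_mem' := by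
    intro c f hf k hk
    rw [ContinuousMap.coe_smul, fourierCoeff.const_smul, hf k hk, smul_zero]

/-- A translation invariant linear form on `C_E` (not assumed continuous). -/
def IsTILF {E : Set ℤ} (Φ : CE E →ₗ[ℂ] ℂ) : Prop :=
  ∀ (a : UnitAddCircle) (f g : CE E),
    (∀ t, (g : C(UnitAddCircle, ℂ)) t = (f : C(UnitAddCircle, ℂ)) (t - a)) → Φ g = Φ f

/-- The automatic continuity property. -/
def ACP (E : Set ℤ) : Prop := ∀ Φ : CE E →ₗ[ℂ] ℂ, IsTILF Φ → Continuous Φ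

/-- Sidon sets (as defined in the problem). -/
def IsSidon (E : Set ℤ) : Prop :=
  ∀ f : C(UnitAddCircle, ℂ), f ∈ CE E → Summable fun k : ℤ => ‖fourierCoeff (f : UnitAddCircle → ℂ) k‖

/-- Translation `(tr a f) t = f (t - a)`. -/
noncomputable def tr (a : UnitAddCircle) (f : C(UnitAddCircle, ℂ)) : C(UnitAddCircle, ℂ) :=
  f.comp ⟨fun t => t - a, by fun_prop⟩

/-- P1: Fourier coefficients of translates; the norm is unchanged. -/
def P1 : Prop := ∀ (a : UnitAddCircle) (f : C(UnitAddCircle, ℂ)),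
  (∀ k : ℤ, fourierCoeff (tr a f : UnitAddCircle → ℂ) k
    = fourier (-k) a * fourierCoeff (f : UnitAddCircle → ℂ) k) ∧ ‖tr a f‖ = ‖f‖

/-- P2: a function with absolutely convergent Fourier series and mean `0` is the sum of two
differences, with spectra inside the spectrum of `f`. -/
def P2 : Prop := ∀ f : C(UnitAddCircle, ℂ),
  (Summable fun k : ℤ => ‖fourierCoeff (f : UnitAddCircle → ℂ) k‖) →
  fourierCoeff (f : UnitAddCircle → ℂ) 0 = 0 →
  ∃ (a b : UnitAddCircle) (g h : C(UnitAddCircle, ℂ)),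
    (∀ k : ℤ, fourierCoeff (f : UnitAddCircle → ℂ) k = 0 →
      fourierCoeff (g : UnitAddCircle → ℂ) k = 0 ∧ fourierCoeff (h : UnitAddCircle → ℂ) k = 0) ∧
    f = (g - tr a g) + (h - tr b h)

/-- P3: if `E ∩ qℤ` is a Sidon set then `E` has the automatic continuity property. -/
def P3 : Prop := ∀ (E : Set ℤ) (q : ℤ), 0 < q → IsSidon {k : ℤ | k ∈ E ∧ q ∣ k} → ACP E

/-- The span of all differences. -/
noncomputable def DD (E : Set ℤ) : Submodule ℂ C(UnitAddCircle, ℂ) :=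
  Submodule.span ℂ {u | ∃ g ∈ CE E, ∃ a : UnitAddCircle, u = g - tr a g}

/-- P4: if `E` has the property, every mean zero `f ∈ C_E` is a finite linear combination of
differences. -/
def P4 : Prop := ∀ E : Set ℤ, ACP E → ∀ f ∈ CE E,
  fourierCoeff (f : UnitAddCircle → ℂ) 0 = 0 → f ∈ DD E

/-- Quantitative form obtained from Baire: near `f1`, everything is almost a sum of `m`
differences of functions bounded by `m`. -/
def Quant (E : Set ℤ) : Prop :=
  ∃ (m : ℕ) (f1 : C(UnitAddCircle, ℂ)) (r : ℝ), f1 ∈ CE E ∧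
    fourierCoeff (f1 : UnitAddCircle → ℂ) 0 = 0 ∧ 0 < r ∧
    ∀ f ∈ CE E, fourierCoeff (f : UnitAddCircle → ℂ) 0 = 0 → ‖f - f1‖ < r → ∀ ε > 0,
      ∃ (g : Fin m → C(UnitAddCircle, ℂ)) (a : Fin m → UnitAddCircle),
        (∀ j, ‖g j‖ ≤ m) ∧ ‖f - ∑ j, (g j - tr (a j) (g j))‖ ≤ ε

/-- P5: Baire category step. -/
def P5 : Prop := ∀ E : Set ℤ,
  (∀ f ∈ CE E, fourierCoeff (f : UnitAddCircle → ℂ) 0 = 0 → f ∈ DD E) → Quant E

/-- P6: the key functions. For all `J` there are `K, R` such that for every `R`-lacunary tuple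
`q_0 < ... < q_{J-1}` of positive integers there is `P`, bounded by `1`, with spectrum in the set of
sums `± ∑ κ_j q_j`, `0 ≤ κ_j ≤ K`, `κ ≠ 0`, such that for any `J` points `y_j` some translate has
`Re P (x + y_j) ≥ 1/20` for all `j`. -/
def P6 : Prop := ∀ J : ℕ, ∃ K R : ℕ, ∀ q : Fin J → ℕ, (∀ j, 0 < q j) →
  (∀ i j : Fin J, i < j → R * q i ≤ q j) → ∀ s : ℤ, (s = 1 ∨ s = -1) →
  ∃ P : C(UnitAddCircle, ℂ), ‖P‖ ≤ 1 ∧
    (∀ k : ℤ, (∀ κ : Fin J → ℕ, (∀ j, κ j ≤ K) → κ ≠ 0 → k ≠ s * ((∑ j, κ j * q j : ℕ) : ℤ)) →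
      fourierCoeff (P : UnitAddCircle → ℂ) k = 0) ∧
    ∀ y : Fin J → UnitAddCircle, ∃ x : UnitAddCircle, ∀ j, (1 : ℝ) / 20 ≤ (P (x + y j)).re

/-- The set `E` contains, up to sign, all nonzero combinations `∑ κ_j q_j` (`0 ≤ κ_j ≤ K`) of
`R`-lacunary tuples `q` of every length `J`, for every `K` and `R`. -/
def HasCubes (E : Set ℤ) : Prop := ∀ J K R : ℕ, ∃ q : Fin J → ℕ, (∀ j, 0 < q j) ∧
  (∀ i j : Fin J, i < j → R * q i ≤ q j) ∧ ∃ s : ℤ, (s = 1 ∨ s = -1) ∧
  ∀ κ : Fin J → ℕ, (∀ j, κ j ≤ K) → κ ≠ 0 → s * ((∑ j, κ j * q j : ℕ) : ℤ) ∈ E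

/-- P7: the averaging contradiction. -/
def P7 : Prop := ∀ E : Set ℤ, HasCubes E → ¬ Quant E

/-- P8: the set of odd integers is not a Sidon set. -/
def P8 : Prop := ¬ IsSidon {k : ℤ | Odd k}

/-- P9: arbitrarily long homogeneous progressions give `HasCubes`. -/
def P9 : Prop := ∀ E : Set ℤ,
  (∀ L : ℕ, ∃ q : ℤ, q ≠ 0 ∧ ∀ k : ℕ, 1 ≤ k → k ≤ L → q * (k : ℤ) ∈ E) → HasCubes E

/-- P10: bump functions on the circle with fast decaying Fourier coefficients. -/
def P10 : Prop := ∀ ε : ℝ, 0 < ε → ∃ c : ℤ → ℂ,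
  (Summable fun n : ℤ => (1 + |(n : ℝ)|) * ‖c n‖) ∧ ∑' n, c n = 1 ∧
  ∀ s : UnitAddCircle, ε ≤ ‖s‖ → ∑' n : ℤ, c n * fourier n s = 0

/-- P11: if `E` is a Sidon set on some Bohr neighbourhood of `0`, then `E` has the automatic
continuity property. -/
def P11 : Prop := ∀ (E : Set ℤ) (m : ℕ) (a : Fin m → UnitAddCircle) (ε : ℝ), 0 < ε →
  IsSidon {k : ℤ | k ∈ E ∧ ∀ j, ‖k • a j‖ < ε} → ACP E

end Pool.Agent.R259.TI
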