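import Mathlib
import Pool.Agent.R259.TI.Defs

set_option autoImplicit false

namespace Pool.Agent.R259.TI

open MeasureTheory Set Filter Topology

theorem p1 : P1 := by
  intro a f
  refine ⟨fun k => ?_, ?_⟩
  · have h1 : fourierCoeff (tr a f : UnitAddCircle → ℂ) k =
        ∫ t : UnitAddCircle, (fun s => fourier (-k) (s + a) • f s) (t - a)
          ∂(AddCircle.haarAddCircle (T := 1)) := by
      unfold fourierCoeff
      congr 1
      funext t
      simp [tr]
    rw [h1, integral_sub_right_eq_self
      (fun s : UnitAddCircle => fourier (-k) (s + a) • f s) a]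
    unfold fourierCoeff
    rw [← integral_const_mul]
    congr 1
    funext t
    have h2 : (fourier (-k) (t + a) : ℂ) = fourier (-k) t * fourier (-k) a := by
      simp only [fourier_apply, smul_add, AddCircle.toCircle_add, Circle.coe_mul]
    rw [h2, smul_eq_mul, smul_eq_mul]
    ring
  · apply le_antisymm
    · rw [ContinuousMap.norm_le _ (norm_nonneg _)]
      intro t
      exact f.norm_coe_le_norm (t - a)
    · rw [ContinuousMap.norm_le _ (norm_nonneg _)]
      intro t
      have := (tr a f).norm_coe_le_norm (t + a)
      simpa [tr] using this

end Pool.Agent.R259.TI
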