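import Mathlib
import Pool.Agent.R259.TI.Defs

set_option autoImplicit false

namespace Pool.Agent.R259.TI

open Set Filter Topology Real Complex

theorem p10_fourier_add (n : ℤ) (x y : UnitAddCircle) :
    (fourier n (x + y) : ℂ) = fourier n x * fourier n y := by
  simp [fourier_apply, smul_add, AddCircle.toCircle_add]

theorem p10_b3 (x : ℝ) : bernoulliFun 3 x = x ^ 3 - 3 / 2 * x ^ 2 + 1 / 2 * x := by
  have h3 : bernoulli 3 = 0 := by
    rw [bernoulli_eq_bernoulli'_of_ne_one (by norm_num : (3:ℕ) ≠ 1), bernoulli'_three]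
  simp [bernoulliFun, Polynomial.bernoulli_def, Finset.sum_range_succ, Nat.choose, h3]
  ring

theorem p10_S (x : ℝ) (hx0 : 0 ≤ x) (hx1 : x ≤ 1) :
    HasSum (fun n : ℤ => 1 / (n : ℂ) ^ 3 * fourier n (x : UnitAddCircle))
      (-(2 * π * I) ^ 3 / 6 * ((x ^ 3 - 3 / 2 * x ^ 2 + 1 / 2 * x : ℝ) : ℂ)) := by
  have h := hasSum_one_div_pow_mul_fourier_mul_bernoulliFun (k := 3) (by norm_num)
    (x := x) ⟨hx0, hx1⟩
  rw [p10_b3] at h
  have e : ((Nat.factorial 3 : ℕ) : ℂ) = 6 := by norm_num [Nat.factorial]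
  rw [e] at h
  exact h

theorem p10_one (x : ℝ) : ((x - 1 : ℝ) : UnitAddCircle) = (x : UnitAddCircle) := by
  have h : ((1 : ℝ) : UnitAddCircle) = 0 := AddCircle.coe_period 1
  rw [AddCircle.coe_sub, h, sub_zero]

theorem p10 : P10 := by
  intro ε hε
  -- step
  obtain ⟨h, hh0, hhε, hh1⟩ : ∃ h : ℝ, 0 < h ∧ 3 / 2 * h ≤ ε ∧ h ≤ 1 / 4 :=
    ⟨min (ε / 2) (1 / 4), by positivity, by
      have := min_le_left (ε / 2) (1 / 4 : ℝ)
      linarith, min_le_right _ _⟩
  set T : ℂ := (2 * π * I) ^ 3 with hT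
  have hT0 : T ≠ 0 := by
    rw [hT]
    apply pow_ne_zero
    exact mul_ne_zero (mul_ne_zero two_ne_zero (by exact_mod_cast Real.pi_ne_zero)) I_ne_zero
  have hhC : (h : ℂ) ≠ 0 := by exact_mod_cast hh0.ne'
  set A : ℂ := (T * (3 / 4) * (h : ℂ) ^ 2)⁻¹ with hA
  set w : ℤ → ℂ := fun n => fourier n (((3 / 2 * h : ℝ)) : UnitAddCircle)
    - 3 * fourier n (((1 / 2 * h : ℝ)) : UnitAddCircle)
    + 3 * fourier n (((-(1 / 2 * h) : ℝ)) : UnitAddCircle)
    - fourier n (((-(3 / 2 * h) : ℝ)) : UnitAddCircle) with hw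
  set c : ℤ → ℂ := fun n => A * (1 / (n : ℂ) ^ 3 * w n) + (if n = 0 then 4 / 3 * (h : ℂ) else 0)
    with hc
  -- the sum at a point
  have hsumAt : ∀ (s : UnitAddCircle) (z₁ z₂ z₃ z₄ : ℂ),
      HasSum (fun n : ℤ => 1 / (n : ℂ) ^ 3 * fourier n ((((3 / 2 * h : ℝ)) : UnitAddCircle) + s)) z₁ →
      HasSum (fun n : ℤ => 1 / (n : ℂ) ^ 3 * fourier n ((((1 / 2 * h : ℝ)) : UnitAddCircle) + s)) z₂ →
      HasSum (fun n : ℤ => 1 / (n : ℂ) ^ 3 *
        fourier n ((((-(1 / 2 * h) : ℝ)) : UnitAddCircle) + s)) z₃ →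
      HasSum (fun n : ℤ => 1 / (n : ℂ) ^ 3 *
        fourier n ((((-(3 / 2 * h) : ℝ)) : UnitAddCircle) + s)) z₄ →
      HasSum (fun n : ℤ => c n * fourier n s)
        (A * (z₁ - 3 * z₂ + 3 * z₃ - z₄) + 4 / 3 * (h : ℂ)) := by
    intro s z₁ z₂ z₃ z₄ h1 h2 h3 h4
    have h5 := (((h1.sub (h2.mul_left 3)).add (h3.mul_left 3)).sub h4).mul_left A
    have h6 : HasSum (fun n : ℤ => if n = 0 then 4 / 3 * (h : ℂ) else 0) (4 / 3 * (h : ℂ)) :=
      hasSum_ite_eq 0 _
    have h7 := h5.add h6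
    have h8 : (fun n : ℤ => c n * fourier n s) = fun n : ℤ =>
        A * (1 / (n : ℂ) ^ 3 * (fourier n ((((3 / 2 * h : ℝ)) : UnitAddCircle) + s) : ℂ) -
          3 * (1 / (n : ℂ) ^ 3 * (fourier n ((((1 / 2 * h : ℝ)) : UnitAddCircle) + s) : ℂ)) +
          3 * (1 / (n : ℂ) ^ 3 * (fourier n ((((-(1 / 2 * h) : ℝ)) : UnitAddCircle) + s) : ℂ)) -
          1 / (n : ℂ) ^ 3 * (fourier n ((((-(3 / 2 * h) : ℝ)) : UnitAddCircle) + s) : ℂ)) +
        if n = 0 then 4 / 3 * (h : ℂ) else 0 := by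
      funext n
      simp only [hc, hw, p10_fourier_add]
      by_cases hn : n = 0
      · subst hn
        simp
      · simp only [hn, if_false]
        ring
    rw [h8]
    exact h7
  refine ⟨c, ?_, ?_, ?_⟩
  · -- summability
    have h1 : Summable fun n : ℤ => 1 / (n : ℝ) ^ 2 :=
      Real.summable_one_div_int_pow.mpr (by norm_num)
    have h2 : Summable fun n : ℤ => ‖A‖ * 16 * (1 / (n : ℝ) ^ 2) := h1.mul_left _
    have h3 : Summable fun n : ℤ => if n = 0 then ‖(4 / 3 * (h : ℂ))‖ else 0 :=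
      (hasSum_ite_eq (0 : ℤ) _).summable
    apply Summable.of_nonneg_of_le _ _ (h2.add h3)
    · intro n; positivity
    · intro n
      have hwn : ‖w n‖ ≤ 8 := by
        have hf : ∀ x : UnitAddCircle, ‖(fourier n x : ℂ)‖ = 1 := fun x => by
          rw [fourier_apply]; exact Circle.norm_coe _
        simp only [hw]
        calc _ ≤ ‖(fourier n (((3 / 2 * h : ℝ)) : UnitAddCircle) : ℂ)‖ +
              ‖3 * (fourier n (((1 / 2 * h : ℝ)) : UnitAddCircle) : ℂ)‖ +
              ‖3 * (fourier n (((-(1 / 2 * h) : ℝ)) : UnitAddCircle) : ℂ)‖ +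
              ‖(fourier n (((-(3 / 2 * h) : ℝ)) : UnitAddCircle) : ℂ)‖ := by
              refine le_trans (norm_sub_le _ _) ?_
              gcongr
              refine le_trans (norm_add_le _ _) ?_
              gcongr
              exact norm_sub_le _ _
          _ = 8 := by
              rw [norm_mul, norm_mul, hf, hf, hf, hf]
              norm_num
      by_cases hn : n = 0
      · subst hn
        simp [hc]
      · simp only [hc, hn, if_false, add_zero]
        have hn1 : (1:ℝ) ≤ |(n:ℝ)| := by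
          have : 1 ≤ |n| := Int.one_le_abs hn
          exact_mod_cast this
        rw [norm_mul, norm_mul, norm_div, norm_one, norm_pow, Complex.norm_intCast]
        have hn0 : 0 < |(n:ℝ)| := by linarith
        have hsq : (n:ℝ) ^ 2 = |(n:ℝ)| ^ 2 := (sq_abs _).symm
        rw [hsq]
        calc (1 + |(n:ℝ)|) * (‖A‖ * (1 / |(n:ℝ)| ^ 3 * ‖w n‖))
            ≤ (|(n:ℝ)| + |(n:ℝ)|) * (‖A‖ * (1 / |(n:ℝ)| ^ 3 * 8)) := by gcongr
          _ = ‖A‖ * 16 * (1 / |(n:ℝ)| ^ 2) := by field_simp; ring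
  · -- value at 0
    have h1 := p10_S (3 / 2 * h) (by positivity) (by linarith)
    have h2 := p10_S (1 / 2 * h) (by positivity) (by linarith)
    have h3 := p10_S (1 - 1 / 2 * h) (by linarith) (by linarith)
    have h4 := p10_S (1 - 3 / 2 * h) (by linarith) (by linarith)
    have e3 : (((-(1 / 2 * h) : ℝ)) : UnitAddCircle) = ((1 - 1 / 2 * h : ℝ) : UnitAddCircle) := by
      rw [← p10_one (1 - 1 / 2 * h)]; congr 1; ring
    have e4 : (((-(3 / 2 * h) : ℝ)) : UnitAddCircle) = ((1 - 3 / 2 * h : ℝ) : UnitAddCircle) := by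
      rw [← p10_one (1 - 3 / 2 * h)]; congr 1; ring
    have h5 := hsumAt 0 _ _ _ _ (by simpa only [add_zero] using h1)
      (by simpa only [add_zero] using h2) (by rw [e3]; simpa only [add_zero] using h3)
      (by rw [e4]; simpa only [add_zero] using h4)
    have h6 : (fun n : ℤ => c n * fourier n (0 : UnitAddCircle)) = c := by
      funext n
      simp
    rw [h6] at h5
    rw [h5.tsum_eq, hA]
    push_cast
    rw [← hT]
    field_simp
    ring
  · intro s hs
    obtain ⟨y, rfl⟩ := QuotientAddGroup.mk_surjective s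
    set x : ℝ := Int.fract y with hx
    have hxy : (x : UnitAddCircle) = (y : UnitAddCircle) := by
      have e1 : ((⌊y⌋ : ℝ) : UnitAddCircle) = 0 := by
        have := AddCircle.coe_eq_zero_iff (p := (1:ℝ)) (x := (⌊y⌋ : ℝ))
        exact this.mpr ⟨⌊y⌋, by simp⟩
      rw [hx, Int.fract, AddCircle.coe_sub, e1, sub_zero]
    have hs' : ε ≤ ‖(x : UnitAddCircle)‖ := by rw [hxy]; exact hs
    rw [UnitAddCircle.norm_eq] at hs'
    have hxn : 0 ≤ x := Int.fract_nonneg y
    have hx1 : x < 1 := Int.fract_lt_one y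
    have g1 : ε ≤ x := by
      have := round_le x 0
      simp only [Int.cast_zero, sub_zero] at this
      rw [abs_of_nonneg hxn] at this
      linarith
    have g2 : ε ≤ 1 - x := by
      have := round_le x 1
      simp only [Int.cast_one] at this
      rw [abs_of_neg (show x - 1 < 0 by linarith)] at this
      linarith
    have key : ∀ a : ℝ, |a| ≤ 3 / 2 * h →
        HasSum (fun n : ℤ => 1 / (n : ℂ) ^ 3 * fourier n ((a : UnitAddCircle) + (y : UnitAddCircle)))
          (-(2 * π * I) ^ 3 / 6 *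
            (((a + x) ^ 3 - 3 / 2 * (a + x) ^ 2 + 1 / 2 * (a + x) : ℝ) : ℂ)) := by
      intro a ha
      have ha' := abs_le.mp ha
      have := p10_S (a + x) (by linarith [ha'.1]) (by linarith [ha'.2])
      rw [← hxy, ← AddCircle.coe_add]
      exact this
    have k1 := key (3 / 2 * h) (by rw [abs_of_pos (by positivity)])
    have k2 := key (1 / 2 * h) (by rw [abs_of_pos (by positivity)]; linarith)
    have k3 := key (-(1 / 2 * h)) (by rw [abs_neg, abs_of_pos (by positivity)]; linarith)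
    have k4 := key (-(3 / 2 * h)) (by rw [abs_neg, abs_of_pos (by positivity)])
    have h5 := hsumAt (y : UnitAddCircle) _ _ _ _ k1 k2 k3 k4
    have h6 := h5.tsum_eq
    have h7 : ∑' n : ℤ, c n * fourier n (y : UnitAddCircle) = 0 := by
      rw [h6, hA]
      push_cast
      rw [← hT]
      field_simp
      ring
    exact h7

end Pool.Agent.R259.TI
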