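import Mathlib
import Pool.Agent.R259.TI.Defs

/-!
# MP_eb9c50_an, piece P6: the key functions
-/

set_option autoImplicit false

namespace Pool.Agent.R259.TI

open MeasureTheory Set Filter Topology Finset

/-- `∑_{k<n} (1 + 2 ∑_{l<k} x^{k-l})`, the analytic half of `n` times the Fejer kernel. -/
noncomputable def p6FA {R : Type*} [CommRing R] (n : ℕ) (x : R) : R :=
  ∑ k ∈ range n, (1 + 2 * ∑ l ∈ range k, x ^ (k - l))

lemma p6_map {R S : Type*} [CommRing R] [CommRing S] (f : R →+* S) (n : ℕ) (x : R) :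
    f (p6FA n x) = p6FA n (f x) := by
  simp only [p6FA, map_sum, map_add, map_mul, map_one, map_pow, map_ofNat]

lemma p6_zero (n : ℕ) : p6FA n (0 : ℂ) = n := by
  unfold p6FA
  have : ∀ k ∈ range n, (1 + 2 * ∑ l ∈ range k, (0 : ℂ) ^ (k - l)) = 1 := by
    intro k _
    have : ∑ l ∈ range k, (0 : ℂ) ^ (k - l) = 0 := by
      apply Finset.sum_eq_zero
      intro l hl
      rw [Finset.mem_range] at hl
      exact zero_pow (by omega)
    rw [this]; ring
  rw [Finset.sum_congr rfl this]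
  simp

lemma p6_re (n : ℕ) (z : ℂ) (hz : ‖z‖ = 1) :
    (p6FA n z).re = Complex.normSq (∑ k ∈ range n, z ^ k) := by
  induction n with
  | zero => simp [p6FA]
  | succ n ih =>
    have h1 : p6FA (n + 1) z = p6FA n z + (1 + 2 * ∑ l ∈ range n, z ^ (n - l)) := by
      unfold p6FA
      rw [Finset.sum_range_succ]
    rw [h1, Finset.sum_range_succ, Complex.normSq_add, Complex.add_re, ih]
    have h2 : Complex.normSq (z ^ n) = 1 := by
      rw [Complex.normSq_eq_norm_sq, norm_pow, hz]; simp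
    have h3 : ((∑ k ∈ range n, z ^ k) * (starRingEnd ℂ) (z ^ n)).re
        = (∑ l ∈ range n, z ^ (n - l)).re := by
      rw [Finset.sum_mul, Complex.re_sum, Complex.re_sum]
      apply Finset.sum_congr rfl
      intro l hl
      rw [Finset.mem_range] at hl
      have : z ^ l * (starRingEnd ℂ) (z ^ n) = (starRingEnd ℂ) (z ^ (n - l)) := by
        have h5 : z ^ n = z ^ (n - l) * z ^ l := by rw [← pow_add]; congr 1; omega
        rw [h5, map_mul]
        have h6 : z ^ l * (starRingEnd ℂ) (z ^ l) = 1 := by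
          rw [Complex.mul_conj, Complex.normSq_eq_norm_sq, norm_pow, hz]; simp
        calc z ^ l * ((starRingEnd ℂ) (z ^ (n - l)) * (starRingEnd ℂ) (z ^ l))
            = (starRingEnd ℂ) (z ^ (n - l)) * (z ^ l * (starRingEnd ℂ) (z ^ l)) := by ring
          _ = _ := by rw [h6, mul_one]
      rw [this, Complex.conj_re]
    rw [h2, h3]
    simp
    ring

lemma p6_norm (n : ℕ) (z : ℂ) (hz : ‖z‖ = 1) : ‖p6FA n z‖ ≤ (n : ℝ) ^ 2 := by
  induction n with
  | zero => simp [p6FA]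
  | succ n ih =>
    have h1 : p6FA (n + 1) z = p6FA n z + (1 + 2 * ∑ l ∈ range n, z ^ (n - l)) := by
      unfold p6FA
      rw [Finset.sum_range_succ]
    rw [h1]
    have h2 : ‖∑ l ∈ range n, z ^ (n - l)‖ ≤ n := by
      refine (norm_sum_le _ _).trans ?_
      have : ∀ l ∈ range n, ‖z ^ (n - l)‖ ≤ 1 := by
        intro l _
        rw [norm_pow, hz, one_pow]
      refine (Finset.sum_le_sum this).trans ?_
      simp
    have h3 : ‖(1 : ℂ) + 2 * ∑ l ∈ range n, z ^ (n - l)‖ ≤ 1 + 2 * n := by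
      refine (norm_add_le _ _).trans ?_
      rw [norm_mul]
      simp only [norm_one, Complex.norm_ofNat]
      linarith
    refine (norm_add_le _ _).trans ?_
    push_cast
    nlinarith [ih, h3]

lemma p6_one (n : ℕ) : p6FA n (1 : ℂ) = (n : ℂ) ^ 2 := by
  induction n with
  | zero => simp [p6FA]
  | succ n ih =>
    have h1 : p6FA (n + 1) (1 : ℂ) = p6FA n 1 + (1 + 2 * ∑ l ∈ range n, (1 : ℂ) ^ (n - l)) := by
      unfold p6FA
      rw [Finset.sum_range_succ]
    rw [h1, ih]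
    simp
    ring

/-- The polynomial. -/
noncomputable def p6Psi (J : ℕ) : MvPolynomial (Fin J) ℂ :=
  ∑ j, (MvPolynomial.C (1 / ((4 * J : ℕ) : ℂ) ^ 2) * p6FA (4 * J) (MvPolynomial.X j)
    - MvPolynomial.C (1 / ((4 * J : ℕ) : ℂ)))

noncomputable def p6Q (J M : ℕ) : MvPolynomial (Fin J) ℂ :=
  MvPolynomial.C ((Real.exp (-1/2) / 2.1 : ℝ) : ℂ) *
    (1 - ∑ i ∈ range M, MvPolynomial.C ((i.factorial : ℂ)⁻¹) * (-2 * p6Psi J) ^ i)

lemma p6_psi_const (J : ℕ) (hJ : 0 < J) : MvPolynomial.constantCoeff (p6Psi J) = 0 := by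
  unfold p6Psi
  rw [map_sum]
  apply Finset.sum_eq_zero
  intro j _
  rw [map_sub, map_mul, p6_map, MvPolynomial.constantCoeff_X, p6_zero,
    MvPolynomial.constantCoeff_C, MvPolynomial.constantCoeff_C]
  have : ((4 * J : ℕ) : ℂ) ≠ 0 := by
    have : (4 * J : ℕ) ≠ 0 := by omega
    exact_mod_cast this
  field_simp
  ring

lemma p6_Q_const (J M : ℕ) (hJ : 0 < J) (hM : 0 < M) :
    MvPolynomial.constantCoeff (p6Q J M) = 0 := by
  unfold p6Q
  rw [map_mul, map_sub, map_one, map_sum]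
  have h : ∑ i ∈ range M, MvPolynomial.constantCoeff
      (MvPolynomial.C ((i.factorial : ℂ)⁻¹) * (-2 * p6Psi J) ^ i) = 1 := by
    rw [Finset.sum_eq_single 0]
    · simp
    · intro i _ hi
      rw [map_mul, map_pow, map_mul, p6_psi_const J hJ, mul_zero, zero_pow hi, mul_zero]
    · intro h
      exact absurd (Finset.mem_range.2 hM) h
  rw [h, sub_self, mul_zero]

lemma p6_psi_eval (J : ℕ) (z : Fin J → ℂ) :
    MvPolynomial.eval z (p6Psi J)
      = ∑ j, (1 / ((4 * J : ℕ) : ℂ) ^ 2 * p6FA (4 * J) (z j) - 1 / ((4 * J : ℕ) : ℂ)) := by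
  unfold p6Psi
  rw [map_sum]
  apply Finset.sum_congr rfl
  intro j _
  rw [map_sub, map_mul, p6_map, MvPolynomial.eval_X, MvPolynomial.eval_C, MvPolynomial.eval_C]

lemma p6_Q_eval (J M : ℕ) (z : Fin J → ℂ) :
    MvPolynomial.eval z (p6Q J M)
      = ((Real.exp (-1/2) / 2.1 : ℝ) : ℂ) *
        (1 - ∑ i ∈ range M, (-2 * MvPolynomial.eval z (p6Psi J)) ^ i / (i.factorial : ℂ)) := by
  unfold p6Q
  rw [map_mul, map_sub, map_one, map_sum, MvPolynomial.eval_C]
  congr 2
  apply Finset.sum_congr rfl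
  intro i _
  rw [map_mul, map_pow, map_mul, MvPolynomial.eval_C, map_neg, map_ofNat, div_eq_inv_mul]

/-- choice of the truncation -/
lemma p6_trunc (J : ℕ) : ∃ M : ℕ, 0 < M ∧ ∀ w : ℂ, ‖w‖ ≤ 6 * J →
    ‖Complex.exp w - ∑ i ∈ range M, w ^ i / (i.factorial : ℂ)‖ ≤ 1 / 100 := by
  have h1 := FloorSemiring.tendsto_pow_div_factorial_atTop (6 * (J : ℝ))
  have h2 : ∀ᶠ m : ℕ in atTop, (6 * (J : ℝ)) ^ m / (m.factorial : ℝ) < 1 / 200 :=
    h1.eventually_lt_const (by norm_num)
  obtain ⟨M, hM⟩ := ((h2.and (eventually_ge_atTop (12 * J + 1))).exists)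
  refine ⟨M, by omega, ?_⟩
  intro w hw
  have h3 : ‖w‖ / (M.succ : ℝ) ≤ 1 / 2 := by
    rw [div_le_iff₀ (by positivity)]
    have : ((12 * J + 1 : ℕ) : ℝ) ≤ M := by exact_mod_cast hM.2
    push_cast at this ⊢
    linarith
  refine (Complex.exp_bound' h3).trans ?_
  have h4 : ‖w‖ ^ M ≤ (6 * (J : ℝ)) ^ M := pow_le_pow_left₀ (norm_nonneg _) hw _
  have h5 : ‖w‖ ^ M / (M.factorial : ℝ) ≤ (6 * (J : ℝ)) ^ M / (M.factorial : ℝ) := by
    gcongr
  linarith [hM.1]

/-- values of the polynomial on the torus -/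
lemma p6_value (J M : ℕ) (hJ : 0 < J)
    (hM : ∀ w : ℂ, ‖w‖ ≤ 6 * J →
      ‖Complex.exp w - ∑ i ∈ range M, w ^ i / (i.factorial : ℂ)‖ ≤ 1 / 100)
    (z : Fin J → ℂ) (hz : ∀ j, ‖z j‖ = 1) :
    ‖MvPolynomial.eval z (p6Q J M)‖ ≤ 1 ∧
    ((∃ j, 1 / 2 ≤ (1 / ((4 * J : ℕ) : ℂ) ^ 2 * p6FA (4 * J) (z j)).re) →
      1 / 20 ≤ (MvPolynomial.eval z (p6Q J M)).re) := by
  have hn : (0 : ℝ) < ((4 * J : ℕ) : ℝ) := by
    have : 0 < 4 * J := by omega
    exact_mod_cast this
  have hn1 : (1 : ℝ) ≤ ((4 * J : ℕ) : ℝ) := by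
    have : 1 ≤ 4 * J := by omega
    exact_mod_cast this
  have hJ1 : (1 : ℝ) ≤ (J : ℝ) := by exact_mod_cast hJ
  set g : Fin J → ℂ := fun j => 1 / ((4 * J : ℕ) : ℂ) ^ 2 * p6FA (4 * J) (z j) with hg
  have hgre : ∀ j, (g j).re = (1 / ((4 * J : ℕ) : ℝ) ^ 2) *
      Complex.normSq (∑ k ∈ range (4 * J), (z j) ^ k) := by
    intro j
    have : (1 / ((4 * J : ℕ) : ℂ) ^ 2) = (((1 / ((4 * J : ℕ) : ℝ) ^ 2) : ℝ) : ℂ) := by
      push_cast; rfl
    rw [hg]
    simp only
    rw [this, Complex.re_ofReal_mul, p6_re _ _ (hz j)]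
  have hgnonneg : ∀ j, 0 ≤ (g j).re := by
    intro j
    rw [hgre]
    have := Complex.normSq_nonneg (∑ k ∈ range (4 * J), (z j) ^ k)
    positivity
  have hgnorm : ∀ j, ‖g j‖ ≤ 1 := by
    intro j
    rw [hg]
    simp only
    rw [norm_mul, norm_div, norm_one, norm_pow, Complex.norm_natCast]
    have := p6_norm (4 * J) (z j) (hz j)
    rw [one_div_mul_eq_div, div_le_one (by positivity)]
    exact this
  set S : ℂ := MvPolynomial.eval z (p6Psi J) with hS
  have hSe : S = ∑ j, g j - 1 / 4 := by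
    rw [hS, p6_psi_eval, Finset.sum_sub_distrib]
    congr 1
    rw [Finset.sum_const, Finset.card_univ, Fintype.card_fin]
    push_cast
    have : (J : ℂ) ≠ 0 := by exact_mod_cast hJ.ne'
    rw [nsmul_eq_mul]
    field_simp
  have hSn : ‖-2 * S‖ ≤ 6 * J := by
    rw [norm_mul, norm_neg, Complex.norm_ofNat, hSe]
    have h1 : ‖∑ j, g j‖ ≤ J := by
      refine (norm_sum_le _ _).trans ?_
      refine (Finset.sum_le_sum (fun j _ => hgnorm j)).trans ?_
      simp
    have h2 : ‖∑ j, g j - 1 / 4‖ ≤ J + 1 / 4 := by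
      refine (norm_sub_le _ _).trans ?_
      have : ‖(1 / 4 : ℂ)‖ = 1 / 4 := by norm_num
      rw [this]; linarith
    linarith
  have hE := hM _ hSn
  set T : ℂ := ∑ i ∈ range M, (-2 * S) ^ i / (i.factorial : ℂ) with hT
  have hval : MvPolynomial.eval z (p6Q J M)
      = ((Real.exp (-1/2) / 2.1 : ℝ) : ℂ) * (1 - T) := by
    rw [p6_Q_eval]
  set e0 : ℝ := Real.exp (-1/2) with he0
  have he0pos : 0 < e0 := Real.exp_pos _
  have he0le : e0 ≤ 1 := by
    rw [he0, Real.exp_le_one_iff]; norm_num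
  have hG : ((e0 : ℝ) : ℂ) * Complex.exp (-2 * S) = Complex.exp (-2 * ∑ j, g j) := by
    rw [he0, Complex.ofReal_exp, ← Complex.exp_add, hSe]
    congr 1
    push_cast
    ring
  have hGn : ‖Complex.exp (-2 * ∑ j, g j)‖ = Real.exp (-2 * ∑ j, (g j).re) := by
    rw [Complex.norm_exp]
    congr 1
    simp [Complex.re_sum]
  have hsum0 : 0 ≤ ∑ j, (g j).re := Finset.sum_nonneg (fun j _ => hgnonneg j)
  have hGle : ‖Complex.exp (-2 * ∑ j, g j)‖ ≤ 1 := by
    rw [hGn, Real.exp_le_one_iff]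
    linarith
  have hkey : ((e0 / 2.1 : ℝ) : ℂ) * (1 - T)
      = (1 / 2.1 : ℂ) * ((e0 : ℂ) - Complex.exp (-2 * ∑ j, g j)
        + (e0 : ℂ) * (Complex.exp (-2 * S) - T)) := by
    rw [← hG]
    push_cast
    ring
  have herr : ‖(e0 : ℂ) * (Complex.exp (-2 * S) - T)‖ ≤ 1 / 100 := by
    rw [norm_mul, Complex.norm_real, Real.norm_eq_abs, abs_of_pos he0pos]
    calc e0 * ‖Complex.exp (-2 * S) - T‖ ≤ 1 * (1 / 100) := by
          apply mul_le_mul he0le hE (norm_nonneg _) (by norm_num)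
      _ = 1 / 100 := by norm_num
  have hn21 : ‖(1 / 2.1 : ℂ)‖ = 1 / 2.1 := by
    have : (1 / 2.1 : ℂ) = ((1 / 2.1 : ℝ) : ℂ) := by push_cast; rfl
    rw [this, Complex.norm_real, Real.norm_eq_abs, abs_of_pos (by norm_num)]
  constructor
  · rw [hval, hkey, norm_mul, hn21]
    have h1 : ‖(e0 : ℂ) - Complex.exp (-2 * ∑ j, g j)
        + (e0 : ℂ) * (Complex.exp (-2 * S) - T)‖ ≤ 2.1 := by
      refine (norm_add_le _ _).trans ?_
      have h2 : ‖(e0 : ℂ) - Complex.exp (-2 * ∑ j, g j)‖ ≤ 2 := by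
        refine (norm_sub_le _ _).trans ?_
        rw [Complex.norm_real, Real.norm_eq_abs, abs_of_pos he0pos]
        linarith
      linarith
    rw [one_div, inv_mul_le_iff₀ (by norm_num)]
    linarith
  · rintro ⟨j, hj⟩
    rw [hval, hkey]
    have h3 : (1 / 2.1 : ℂ) = ((1 / 2.1 : ℝ) : ℂ) := by push_cast; rfl
    rw [h3, Complex.re_ofReal_mul, Complex.add_re, Complex.sub_re, Complex.ofReal_re]
    have h4 : (Complex.exp (-2 * ∑ j, g j)).re ≤ Real.exp (-1) := by
      refine (Complex.re_le_norm _).trans ?_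
      rw [hGn, Real.exp_le_exp]
      have : (g j).re ≤ ∑ j, (g j).re :=
        Finset.single_le_sum (fun j _ => hgnonneg j) (Finset.mem_univ j)
      have hj' : 1 / 2 ≤ (g j).re := hj
      linarith
    have h5 : -(1 / 100 : ℝ) ≤ ((e0 : ℂ) * (Complex.exp (-2 * S) - T)).re := by
      have := (Complex.abs_re_le_norm ((e0 : ℂ) * (Complex.exp (-2 * S) - T)))
      have := abs_le.1 (this.trans herr)
      exact this.1
    have h6 : (0.6 : ℝ) ≤ e0 := by
      have hsq : e0 * e0 = Real.exp (-1) := by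
        rw [he0, ← Real.exp_add]; norm_num
      have := Real.exp_neg_one_gt_d9
      by_contra hlt
      push Not at hlt
      nlinarith
    have h7 := Real.exp_neg_one_lt_d9
    have h8 : (0.2 : ℝ) ≤ e0 - (Complex.exp (-2 * ∑ j, g j)).re
        + ((e0 : ℂ) * (Complex.exp (-2 * S) - T)).re := by linarith
    have : (1 / 2.1 : ℝ) * 0.2 ≤ (1 / 2.1) * (e0 - (Complex.exp (-2 * ∑ j, g j)).re
        + ((e0 : ℂ) * (Complex.exp (-2 * S) - T)).re) := by
      apply mul_le_mul_of_nonneg_left h8 (by norm_num)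
    refine le_trans ?_ this
    norm_num

/-- simultaneous approximation for lacunary frequencies -/
lemma p6_points (J R : ℕ) (hR : 0 < R) (q : Fin J → ℕ) (hq : ∀ j, 0 < q j)
    (hlac : ∀ i j : Fin J, i < j → R * q i ≤ q j) (y : Fin J → UnitAddCircle) :
    ∃ x : UnitAddCircle, ∀ j, ‖q j • (x + y j)‖ ≤ (J : ℝ) / (2 * R) := by
  have hR' : (0 : ℝ) < R := by exact_mod_cast hR
  have main : ∀ m : ℕ, m ≤ J → ∃ x : UnitAddCircle, ∀ i : Fin J, (i : ℕ) < m →
      ‖q i • (x + y i)‖ ≤ (m : ℝ) / (2 * R) := by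
    intro m
    induction m with
    | zero =>
      intro _
      exact ⟨0, fun i hi => absurd hi (Nat.not_lt_zero _)⟩
    | succ m ih =>
      intro hm
      obtain ⟨x, hx⟩ := ih (by omega)
      let i : Fin J := ⟨m, by omega⟩
      have hqi : (0 : ℝ) < q i := by exact_mod_cast hq i
      obtain ⟨u, hu⟩ : ∃ u : ℝ, (u : UnitAddCircle) = q i • (x + y i) :=
        QuotientAddGroup.mk_surjective (q i • (x + y i))
      set v : ℝ := u - round u with hv
      have hvn : |v| ≤ 1 / 2 := abs_sub_round u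
      have hvc : (v : UnitAddCircle) = q i • (x + y i) := by
        rw [hv, ← hu]
        have : ((u - (round u : ℝ) : ℝ) : UnitAddCircle) = (u : UnitAddCircle) - (((round u : ℤ) : ℝ) : UnitAddCircle) := by
          rfl
        rw [this]
        have h0 : ((((round u : ℤ)) : ℝ) : UnitAddCircle) = 0 := by
          have : (((round u : ℤ) : ℝ) : UnitAddCircle) = ((round u • (1 : ℝ) : ℝ) : UnitAddCircle) := by
            simp
          rw [this, AddCircle.coe_zsmul, AddCircle.coe_period, smul_zero]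
        rw [h0, sub_zero]
      refine ⟨x + ((-(v / q i) : ℝ) : UnitAddCircle), ?_⟩
      intro l hl
      have hsplit : q l • (x + ((-(v / q i) : ℝ) : UnitAddCircle) + y l)
          = q l • (x + y l) + (((q l : ℝ) * (-(v / q i)) : ℝ) : UnitAddCircle) := by
        have : (((q l : ℝ) * (-(v / q i)) : ℝ) : UnitAddCircle)
            = q l • ((-(v / q i) : ℝ) : UnitAddCircle) := by
          rw [← AddCircle.coe_nsmul, nsmul_eq_mul]
        rw [this, ← smul_add]
        congr 1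
        abel
      rw [hsplit]
      rcases Nat.lt_or_ge (l : ℕ) m with hlm | hlm
      · have h1 := hx l hlm
        have h2 : ‖(((q l : ℝ) * (-(v / q i)) : ℝ) : UnitAddCircle)‖ ≤ 1 / (2 * R) := by
          have h3 : ‖(((q l : ℝ) * (-(v / q i)) : ℝ) : UnitAddCircle)‖
              ≤ |(q l : ℝ) * (-(v / q i))| := by
            rw [UnitAddCircle.norm_eq]
            have := round_le ((q l : ℝ) * (-(v / q i))) 0
            simpa using this
          refine h3.trans ?_
          have hli : l < i := hlm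
          have h4 : (R : ℝ) * q l ≤ q i := by exact_mod_cast hlac l i hli
          have hql : (0 : ℝ) < q l := by exact_mod_cast hq l
          rw [abs_mul, abs_neg, abs_div, abs_of_pos hql, abs_of_pos hqi]
          rw [mul_div_assoc', div_le_div_iff₀ hqi (by positivity)]
          have : (q l : ℝ) * |v| * (2 * R) ≤ (q l : ℝ) * (1 / 2) * (2 * R) := by
            gcongr
          linarith
        refine (norm_add_le _ _).trans ?_
        push_cast
        have h6 : ((m : ℝ) + 1) / (2 * R) = m / (2 * R) + 1 / (2 * R) := by ring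
        rw [h6]
        linarith
      · have hl' : l = i := by
          apply Fin.ext
          show (l : ℕ) = m
          omega
        rw [hl']
        have h7 : (((q i : ℝ) * (-(v / q i)) : ℝ) : UnitAddCircle) = - (v : UnitAddCircle) := by
          have : (q i : ℝ) * (-(v / q i)) = -v := by field_simp
          rw [this, AddCircle.coe_neg]
        rw [h7, hvc, add_neg_cancel, norm_zero]
        positivity
  obtain ⟨x, hx⟩ := main J le_rfl
  exact ⟨x, fun j => hx j j.2⟩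

lemma p6_prod (J : ℕ) (s : ℤ) (q : Fin J → ℕ) (m : Fin J → ℕ) :
    ∏ j, (fourier (s * (q j : ℤ)) : C(UnitAddCircle, ℂ)) ^ (m j)
      = fourier (s * ((∑ j, m j * q j : ℕ) : ℤ)) := by
  ext t
  rw [ContinuousMap.prod_apply]
  simp only [ContinuousMap.pow_apply]
  have h : ∀ (n : ℤ) (k : ℕ), (fourier n t : ℂ) ^ k = fourier ((k : ℤ) * n) t := by
    intro n k
    induction k with
    | zero => simp
    | succ k ih => rw [pow_succ, ih, ← fourier_add]; congr 2; push_cast; ring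
  simp only [h]
  have h2 : ∀ (A : Finset (Fin J)) (g : Fin J → ℤ),
      ∏ j ∈ A, (fourier (g j) t : ℂ) = fourier (∑ j ∈ A, g j) t := by
    classical
    intro A g
    induction A using Finset.induction_on with
    | empty => simp
    | insert a A ha ih => rw [Finset.prod_insert ha, Finset.sum_insert ha, ih, fourier_add]
  rw [h2]
  congr 2
  push_cast
  rw [Finset.mul_sum]
  apply Finset.sum_congr rfl
  intro j _
  ring

lemma p6_spec (J K : ℕ) (s : ℤ) (q : Fin J → ℕ) (Q : MvPolynomial (Fin J) ℂ)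
    (hK : Q.totalDegree ≤ K) (h0 : MvPolynomial.constantCoeff Q = 0) :
    MvPolynomial.aeval (fun j => (fourier (s * (q j : ℤ)) : C(UnitAddCircle, ℂ))) Q ∈
      CE {k : ℤ | ∃ κ : Fin J → ℕ, (∀ j, κ j ≤ K) ∧ κ ≠ 0 ∧
        k = s * ((∑ j, κ j * q j : ℕ) : ℤ)} := by
  rw [MvPolynomial.aeval_def, MvPolynomial.eval₂_eq']
  apply Submodule.sum_mem
  intro m hm
  rw [p6_prod, ← Algebra.smul_def]
  apply Submodule.smul_mem
  intro k hk
  rw [fourierCoeff_fourier]
  have hne : k ≠ s * ((∑ j, m j * q j : ℕ) : ℤ) := by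
    intro he
    apply hk
    refine ⟨m, ?_, ?_, he⟩
    · intro j
      have h1 := MvPolynomial.le_totalDegree hm
      have h2 : m j ≤ m.sum fun _ e => e := by
        rw [Finsupp.sum_fintype _ _ (fun _ => rfl)]
        exact Finset.single_le_sum (fun _ _ => Nat.zero_le _) (Finset.mem_univ j)
      omega
    · intro hm0
      have : m = 0 := by
        ext j
        exact congrFun hm0 j
      rw [this] at hm
      exact (MvPolynomial.mem_support_iff.1 hm) h0
  rw [Pi.single_apply, if_neg hne]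

theorem p6 : P6 := by
  intro J
  rcases Nat.eq_zero_or_pos J with hJ0 | hJ
  · subst hJ0
    refine ⟨0, 0, ?_⟩
    intro q _ _ s _
    refine ⟨0, by simp, ?_, ?_⟩
    · intro k _
      simp [fourierCoeff]
    · intro y
      exact ⟨0, fun j => j.elim0⟩
  obtain ⟨M, hM0, hM⟩ := p6_trunc J
  -- the good neighbourhood
  obtain ⟨ρ, hρ, hgood⟩ : ∃ ρ : ℝ, 0 < ρ ∧ ∀ u : UnitAddCircle, ‖u‖ ≤ ρ →
      1 / 2 ≤ (1 / ((4 * J : ℕ) : ℂ) ^ 2 * p6FA (4 * J) (fourier 1 u : ℂ)).re := by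
    have hcont : Continuous fun u : UnitAddCircle =>
        (1 / ((4 * J : ℕ) : ℂ) ^ 2 * p6FA (4 * J) (fourier 1 u : ℂ)).re := by
      unfold p6FA
      fun_prop
    have h0 : (1 / 2 : ℝ) < (1 / ((4 * J : ℕ) : ℂ) ^ 2 *
        p6FA (4 * J) (fourier 1 (0 : UnitAddCircle) : ℂ)).re := by
      rw [fourier_eval_zero, p6_one]
      have : ((4 * J : ℕ) : ℂ) ≠ 0 := by
        have : (4 * J : ℕ) ≠ 0 := by omega
        exact_mod_cast this
      have h1 : (1 / ((4 * J : ℕ) : ℂ) ^ 2 * ((4 * J : ℕ) : ℂ) ^ 2) = 1 := by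
        field_simp
      rw [h1]; norm_num
    have h1 : ∀ᶠ u in 𝓝 (0 : UnitAddCircle), (1 / 2 : ℝ) <
        (1 / ((4 * J : ℕ) : ℂ) ^ 2 * p6FA (4 * J) (fourier 1 u : ℂ)).re :=
      hcont.continuousAt.eventually_const_lt h0
    obtain ⟨ε, hε, hb⟩ := Metric.eventually_nhds_iff.1 h1
    refine ⟨ε / 2, by positivity, ?_⟩
    intro u hu
    have : dist u 0 < ε := by
      rw [dist_zero_right]; linarith
    exact (hb this).le
  obtain ⟨R, hR⟩ := exists_nat_gt ((J : ℝ) / (2 * ρ))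
  have hRpos : 0 < R := by
    have : (0 : ℝ) < R := lt_of_le_of_lt (by positivity) hR
    exact_mod_cast this
  have hRρ : (J : ℝ) / (2 * R) ≤ ρ := by
    have hR' : (0 : ℝ) < R := by exact_mod_cast hRpos
    rw [div_lt_iff₀ (by positivity)] at hR
    rw [div_le_iff₀ (by positivity)]
    nlinarith
  refine ⟨(p6Q J M).totalDegree, R, ?_⟩
  intro q hq hlac s hs
  set P : C(UnitAddCircle, ℂ) :=
    MvPolynomial.aeval (fun j => (fourier (s * (q j : ℤ)) : C(UnitAddCircle, ℂ))) (p6Q J M) with hP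
  have hval : ∀ t : UnitAddCircle, P t
      = MvPolynomial.eval (fun j => (fourier (s * (q j : ℤ)) t : ℂ)) (p6Q J M) := by
    intro t
    have h1 := MvPolynomial.comp_aeval_apply (ContinuousMap.evalAlgHom ℂ ℂ t)
      (f := (fun j => (fourier (s * (q j : ℤ)) : C(UnitAddCircle, ℂ)))) (p6Q J M)
    rw [hP]
    exact h1
  have hn1 : ∀ (t : UnitAddCircle) (j : Fin J), ‖(fourier (s * (q j : ℤ)) t : ℂ)‖ = 1 := by
    intro t j
    rw [fourier_apply]
    exact Circle.norm_coe _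
  refine ⟨P, ?_, ?_, ?_⟩
  · rw [ContinuousMap.norm_le _ zero_le_one]
    intro t
    rw [hval]
    exact (p6_value J M hJ hM _ (hn1 t)).1
  · intro k hk
    have h1 := p6_spec J _ s q (p6Q J M) le_rfl (p6_Q_const J M hJ hM0)
    apply h1 k
    rintro ⟨κ, hκ1, hκ2, hκ3⟩
    exact hk κ hκ1 hκ2 hκ3
  · intro y
    obtain ⟨x, hx⟩ := p6_points J R hRpos q hq hlac y
    refine ⟨x, fun j => ?_⟩
    rw [hval]
    apply (p6_value J M hJ hM _ (hn1 (x + y j))).2
    refine ⟨j, ?_⟩
    have h1 : (fourier (s * (q j : ℤ)) (x + y j) : ℂ)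
        = fourier 1 ((s * (q j : ℤ)) • (x + y j)) := by
      rw [fourier_apply, fourier_apply, one_zsmul]
    rw [h1]
    apply hgood
    have h2 : ‖(s * (q j : ℤ)) • (x + y j)‖ = ‖q j • (x + y j)‖ := by
      rcases hs with rfl | rfl
      · rw [one_mul, natCast_zsmul]
      · rw [neg_one_mul, neg_zsmul, norm_neg, natCast_zsmul]
    rw [h2]
    exact (hx j).trans hRρ

end Pool.Agent.R259.TI
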